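import Mathlib

/-!
An additive MRD code in `M_3(F_4)` with minimum distance 2 containing no code equivalent to the
field spread set of `F_64`: every `X` of the code with `w X` in the code is singular, while a code
equivalent to the field spread set contains an invertible `X` together with `w X`.
-/

set_option maxRecDepth 100000

namespace Pool.Agent.Results.MP_bf8bcd_co.Counter

open Matrix

/-- `C` has minimum rank distance `d`. -/
def MinDist {F : Type} [Field F] {n : ℕ} (C : Set (Matrix (Fin n) (Fin n) F)) (d : ℕ) : Prop :=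
  (∀ X ∈ C, ∀ Y ∈ C, X ≠ Y → d ≤ (X - Y).rank) ∧ ∃ X ∈ C, ∃ Y ∈ C, X ≠ Y ∧ (X - Y).rank = d

/-- Additive MRD code with minimum distance `d`. -/
def AddMRD {F : Type} [Field F] [Fintype F] {n : ℕ} (C : Set (Matrix (Fin n) (Fin n) F))
    (d : ℕ) : Prop :=
  (∀ X ∈ C, ∀ Y ∈ C, X + Y ∈ C) ∧ MinDist C d ∧ C.ncard = Fintype.card F ^ (n * (n - d + 1))

/-- Equivalence of codes. -/
def Equivalent {F : Type} [Field F] {n : ℕ} (C C' : Set (Matrix (Fin n) (Fin n) F)) : Prop :=
  ∃ (A B : GL (Fin n) F) (σ : F ≃+* F),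
    C' = (fun X => (A : Matrix (Fin n) (Fin n) F) * X.map σ * (B : Matrix (Fin n) (Fin n) F)) '' C ∨
    C' = (fun X => (A : Matrix (Fin n) (Fin n) F) * (X.map σ)ᵀ *
      (B : Matrix (Fin n) (Fin n) F)) '' C

/-- The field spread set of an extension field `L` of degree `n`, written in the basis `b`. -/
def fieldSpread {F L : Type} [Field F] [Field L] [Algebra F L] {n : ℕ}
    (b : Module.Basis (Fin n) F L) : Set (Matrix (Fin n) (Fin n) F) :=
  Set.range (Algebra.leftMulMatrix b)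

inductive F4 | z | o | w | v
  deriving DecidableEq

open F4

instance : Fintype F4 := ⟨{z, o, w, v}, fun x => by cases x <;> decide⟩

def add4 : F4 → F4 → F4
  | z, x => x
  | x, z => x
  | o, o => z | o, w => v | o, v => w
  | w, o => v | w, w => z | w, v => o
  | v, o => w | v, w => o | v, v => z

def mul4 : F4 → F4 → F4
  | z, _ => z
  | _, z => z
  | o, x => x
  | x, o => x
  | w, w => v | w, v => o
  | v, w => o | v, v => w

def inv4 : F4 → F4
  | z => z | o => o | w => v | v => w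

instance : Add F4 := ⟨add4⟩
instance : Mul F4 := ⟨mul4⟩
instance : Neg F4 := ⟨id⟩
instance : Inv F4 := ⟨inv4⟩
instance : Zero F4 := ⟨z⟩
instance : One F4 := ⟨o⟩
instance : Field F4 := Field.ofMinimalAxioms F4 (by decide) (by decide) (by decide) (by decide)
  (by decide) (by decide) (by decide) (by decide) (by decide) ⟨z, o, by decide⟩

def s (x : F4) : F4 := x * x
lemma s_add : ∀ x y : F4, s (x + y) = s x + s y := by decide
lemma sub_eq : ∀ x y : F4, x - y = x + y := by decide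

def p0 (_a b c d e f : F4) : F4 := b + v * s c + w * d + v * s d + v * s e + v * f + v * s f
def p1 (a b c d e f : F4) : F4 :=
  w * a + w * b + w * s b + w * c + v * s c + v * s d + e + v * s e + w * f + s f
def p2 (a b c d e _f : F4) : F4 :=
  w * a + w * s a + v * b + w * s b + w * c + v * s c + d + s d + v * e + v * s e

abbrev T : Type := F4 × F4 × F4 × F4 × F4 × F4

def M6 (a b c d e f : F4) : Matrix (Fin 3) (Fin 3) F4 :=
  !![a, d, p0 a b c d e f; b, e, p1 a b c d e f; c, f, p2 a b c d e f]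
def M (t : T) : Matrix (Fin 3) (Fin 3) F4 :=
  M6 t.1 t.2.1 t.2.2.1 t.2.2.2.1 t.2.2.2.2.1 t.2.2.2.2.2

lemma M_add (t t' : T) : M t + M t' = M (t + t') := by
  obtain ⟨a, b, c, d, e, f⟩ := t
  obtain ⟨a', b', c', d', e', f'⟩ := t'
  ext i j
  fin_cases i <;> fin_cases j <;> simp [M, M6, p0, p1, p2, s_add] <;> ring

lemma M_sub (t t' : T) : M t - M t' = M (t + t') := by
  rw [← M_add]; ext i j; simp only [Matrix.sub_apply, Matrix.add_apply, sub_eq]

lemma M_inj : Function.Injective M := by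
  rintro ⟨a, b, c, d, e, f⟩ ⟨a', b', c', d', e', f'⟩ h
  have h1 := congrFun (congrFun h 0) 0
  have h2 := congrFun (congrFun h 1) 0
  have h3 := congrFun (congrFun h 2) 0
  have h4 := congrFun (congrFun h 0) 1
  have h5 := congrFun (congrFun h 1) 1
  have h6 := congrFun (congrFun h 2) 1
  simp [M, M6] at h1 h2 h3 h4 h5 h6
  simp [h1, h2, h3, h4, h5, h6]

lemma rank_ge (X : Matrix (Fin 3) (Fin 3) F4) (r1 r2 c1 c2 : Fin 3)
    (h : X r1 c1 * X r2 c2 ≠ X r1 c2 * X r2 c1) : 2 ≤ X.rank := by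
  have h1 : IsUnit (X.submatrix ![r1, r2] ![c1, c2]) := by
    rw [Matrix.isUnit_iff_isUnit_det, Matrix.det_fin_two, isUnit_iff_ne_zero, sub_ne_zero]
    simpa using h
  have h2 := Matrix.rank_of_isUnit _ h1
  have h3 := Matrix.rank_submatrix_le X ![r1, r2] ![c1, c2]
  rw [h2] at h3
  simpa using h3

lemma minors : ∀ a b c d e f : F4, (a = 0 ∧ b = 0 ∧ c = 0 ∧ d = 0 ∧ e = 0 ∧ f = 0) ∨
    a * e ≠ d * b ∨ a * f ≠ d * c ∨ b * f ≠ e * c ∨
    a * p1 a b c d e f ≠ p0 a b c d e f * b ∨ a * p2 a b c d e f ≠ p0 a b c d e f * c ∨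
    b * p2 a b c d e f ≠ p1 a b c d e f * c ∨
    d * p1 a b c d e f ≠ p0 a b c d e f * e ∨ d * p2 a b c d e f ≠ p0 a b c d e f * f ∨
    e * p2 a b c d e f ≠ p1 a b c d e f * f := by
  decide +kernel

lemma rank_M (t : T) (ht : t ≠ 0) : 2 ≤ (M t).rank := by
  obtain ⟨a, b, c, d, e, f⟩ := t
  rcases minors a b c d e f with ⟨rfl, rfl, rfl, rfl, rfl, rfl⟩ | h | h | h | h | h | h | h | h | h
  · exact absurd rfl ht
  · exact rank_ge _ 0 1 0 1 h
  · exact rank_ge _ 0 2 0 1 h
  · exact rank_ge _ 1 2 0 1 h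
  · exact rank_ge _ 0 1 0 2 h
  · exact rank_ge _ 0 2 0 2 h
  · exact rank_ge _ 1 2 0 2 h
  · exact rank_ge _ 0 1 1 2 h
  · exact rank_ge _ 0 2 1 2 h
  · exact rank_ge _ 1 2 1 2 h

lemma sing : ∀ a b c d e f : F4,
    p0 (w * a) (w * b) (w * c) (w * d) (w * e) (w * f) = w * p0 a b c d e f →
    p1 (w * a) (w * b) (w * c) (w * d) (w * e) (w * f) = w * p1 a b c d e f →
    p2 (w * a) (w * b) (w * c) (w * d) (w * e) (w * f) = w * p2 a b c d e f →
    a * e * p2 a b c d e f - a * p1 a b c d e f * f - d * b * p2 a b c d e f +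
      d * p1 a b c d e f * c + p0 a b c d e f * b * f - p0 a b c d e f * e * c = 0 := by
  decide +kernel

lemma key (X : Matrix (Fin 3) (Fin 3) F4) (h : X ∈ Set.range M) (h' : w • X ∈ Set.range M) :
    X.det = 0 := by
  obtain ⟨⟨a, b, c, d, e, f⟩, rfl⟩ := h
  obtain ⟨⟨a', b', c', d', e', f'⟩, h⟩ := h'
  have h1 : a' = w * a := congrFun (congrFun h 0) 0
  have h2 : b' = w * b := congrFun (congrFun h 1) 0
  have h3 : c' = w * c := congrFun (congrFun h 2) 0
  have h4 : d' = w * d := congrFun (congrFun h 0) 1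
  have h5 : e' = w * e := congrFun (congrFun h 1) 1
  have h6 : f' = w * f := congrFun (congrFun h 2) 1
  subst h1 h2 h3 h4 h5 h6
  rw [Matrix.det_fin_three]
  exact sing a b c d e f (congrFun (congrFun h 0) 2) (congrFun (congrFun h 1) 2)
    (congrFun (congrFun h 2) 2)

lemma mrd : AddMRD (Set.range M) 2 := by
  have hM0 : ∀ t t' : T, t + t' = 0 → t = t' := by
    have : ∀ x y : F4, x + y = 0 → x = y := by decide
    rintro ⟨a, b, c, d, e, f⟩ ⟨a', b', c', d', e', f'⟩ h
    simp only [Prod.mk_add_mk, Prod.mk_eq_zero] at h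
    obtain ⟨h1, h2, h3, h4, h5, h6⟩ := h
    rw [this _ _ h1, this _ _ h2, this _ _ h3, this _ _ h4, this _ _ h5, this _ _ h6]
  refine ⟨?_, ⟨?_, M (0, 0, 0, 1, 0, 0), ⟨_, rfl⟩, M 0, ⟨_, rfl⟩, ?_, ?_⟩, ?_⟩
  · rintro _ ⟨t, rfl⟩ _ ⟨t', rfl⟩
    exact ⟨_, (M_add t t').symm⟩
  · rintro _ ⟨t, rfl⟩ _ ⟨t', rfl⟩ hne
    rw [M_sub]
    exact rank_M _ fun h => hne (by rw [hM0 _ _ h])
  · intro h
    exact absurd (M_inj h) (by decide)
  · rw [M_sub, add_zero]
    refine le_antisymm ?_ (rank_M _ (by decide))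
    have : M (0, 0, 0, 1, 0, 0) = (M (0, 0, 0, 1, 0, 0)).submatrix id ![1, 2] *
        (!![0, 1, 0; 0, 0, 1] : Matrix (Fin 2) (Fin 3) F4) := by
      decide +kernel
    rw [this]
    exact (Matrix.rank_mul_le_left _ _).trans (Matrix.rank_le_width _)
  · rw [← Set.image_univ, Set.ncard_image_of_injective _ M_inj, Set.ncard_univ,
      Nat.card_eq_fintype_card]
    simp only [Fintype.card_prod]
    rfl

theorem result : ∃ (F : Type) (_ : Field F) (_ : Fintype F)
    (C : Set (Matrix (Fin 3) (Fin 3) F)), Fintype.card F = 4 ∧ AddMRD C 2 ∧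
    ∀ (L : Type) [Field L] [Algebra F L] (b : Module.Basis (Fin 3) F L)
      (D : Set (Matrix (Fin 3) (Fin 3) F)), D ⊆ C → ¬ Equivalent (fieldSpread b) D := by
  refine ⟨F4, inferInstance, inferInstance, Set.range M, rfl, mrd, ?_⟩
  rintro L _ _ b D hD ⟨A, B, σ, h⟩
  have hc : ∀ c : F4, (c • (1 : Matrix (Fin 3) (Fin 3) F4)) ∈ fieldSpread b := by
    intro c
    refine ⟨algebraMap F4 L c, ?_⟩
    rw [AlgHom.commutes, Algebra.algebraMap_eq_smul_one]
  have hm : ∀ c : F4, (c • (1 : Matrix (Fin 3) (Fin 3) F4)).map σ = σ c • 1 := by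
    intro c
    ext i j
    by_cases hij : i = j <;> simp [hij]
  have hin : ∀ c : F4, c • ((A : Matrix (Fin 3) (Fin 3) F4) * (B : Matrix (Fin 3) (Fin 3) F4)) ∈
      Set.range M := by
    intro c
    apply hD
    rcases h with h | h <;> rw [h] <;> refine ⟨_, hc (σ.symm c), ?_⟩ <;> simp [hm]
  have h0 := key _ (by simpa using hin 1) (hin w)
  have hu : IsUnit ((A : Matrix (Fin 3) (Fin 3) F4) * (B : Matrix (Fin 3) (Fin 3) F4)) :=
    A.isUnit.mul B.isUnit
  rw [Matrix.isUnit_iff_isUnit_det, h0] at hu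
  exact not_isUnit_zero hu

end Pool.Agent.Results.MP_bf8bcd_co.Counter
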